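import Pool.Agent.Mg.Fac6554.G76a266

set_option autoImplicit false

open MeasureTheory ProbabilityTheory TopologicalSpace Metric Set Filter Topology
open Pool.Agent.MP_ac6554_pr

namespace Pool.Agent.Results.MP_ac6554_pr.NonGaussian

/-- For `κ ≠ 4` a Gaussian nesting field is trivial. -/
theorem result (κ : ℝ) (h1 : 8 / 3 < κ) (h2 : κ < 8) (h4 : κ ≠ 4)
    (Ω : Type) [MeasurableSpace Ω] (P : Measure Ω) [IsProbabilityMeasure P]
    (V : ℕ → Ω → Opens ℂ) (hV : IsCLE κ P V)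
    (D : Opens ℂ) (F : ℂ → ℂ) (hF : Conf F D)
    (μ : Measure ℝ) [IsProbabilityMeasure μ] (hμ : MemLp id 2 μ)
    (h : Ω × (ℕ → ℝ) → Distribution D ℝ ⊤)
    (hlim : ∀ φ : TestFunction D ℝ ⊤, ∀ᵐ p ∂(P.prod (Measure.infinitePi fun _ : ℕ => μ)),
      Tendsto (fun ε : ℝ => ∫ z, centred P V μ F p z ε * φ z) (𝓝[>] 0) (𝓝 (h p φ)))
    (hG : IsGaussianProcess (fun (φ : TestFunction D ℝ ⊤) p => h p φ)
      (P.prod (Measure.infinitePi fun _ : ℕ => μ))) :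
    μ = Measure.dirac 0 ∧ ∀ᵐ p ∂(P.prod (Measure.infinitePi fun _ : ℕ => μ)), h p = 0 := by
  have := main h1 h2 h4 hV hF μ hμ h hlim fun φ => hG.hasGaussianLaw_eval φ
  subst this
  exact ⟨rfl, zero_of_dirac P V F h hlim⟩

end Pool.Agent.Results.MP_ac6554_pr.NonGaussian
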